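import Pool.Agent.Q19.HO.Stm

set_option autoImplicit false

/-!
# Project HO (helper19), job SO (helper123): ideals of the Lie algebra of skew-symmetric matrices
-/

namespace Pool.Agent.Q123.HO.SO

open Pool.Agent.Q19.HO
open Matrix

variable {K : Type} [Field K] {n : ℕ}

/-- `E_ij - E_ji` -/
def F (i j : Fin n) : Matrix (Fin n) (Fin n) K :=
  Matrix.of fun p q => (if p = i ∧ q = j then 1 else 0) - (if p = j ∧ q = i then 1 else 0)

theorem F_apply (i j p q : Fin n) : (F i j : Matrix (Fin n) (Fin n) K) p q =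
    (if p = i ∧ q = j then 1 else 0) - (if p = j ∧ q = i then 1 else 0) := rfl

theorem F_skew (i j : Fin n) : (F i j : Matrix (Fin n) (Fin n) K)ᵀ = -F i j := by
  ext p q
  rw [Matrix.transpose_apply, Matrix.neg_apply, F_apply, F_apply]
  rw [neg_sub]
  congr 1
  · congr 1
    rw [and_comm]
  · congr 1
    rw [and_comm]

theorem F_mul (i j : Fin n) (m : Matrix (Fin n) (Fin n) K) (p q : Fin n) :
    (F i j * m : Matrix (Fin n) (Fin n) K) p q = (if p = i then m j q else 0) - (if p = j then m i q else 0) := by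
  rw [Matrix.mul_apply]
  simp only [F_apply, sub_mul, ite_and, Finset.sum_sub_distrib, ite_mul, one_mul, zero_mul]
  congr 1
  · by_cases h : p = i
    · simp [h]
    · simp [h]
  · by_cases h : p = j
    · simp [h]
    · simp [h]

theorem mul_F (i j : Fin n) (m : Matrix (Fin n) (Fin n) K) (p q : Fin n) :
    (m * F i j : Matrix (Fin n) (Fin n) K) p q = (if q = j then m p i else 0) - (if q = i then m p j else 0) := by
  rw [Matrix.mul_apply]
  simp only [F_apply, mul_sub, Finset.sum_sub_distrib, mul_ite, mul_one, mul_zero]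
  congr 1
  · by_cases h : q = j
    · simp [h]
    · simp [h]
  · by_cases h : q = i
    · simp [h]
    · simp [h]

/-- the projection -/
def P (i j : Fin n) (u : Matrix (Fin n) (Fin n) K) : Matrix (Fin n) (Fin n) K :=
  Matrix.of fun p q => if ((p = i ∨ p = j) ↔ (q = i ∨ q = j)) then 0 else u p q

theorem P_apply (i j : Fin n) (u : Matrix (Fin n) (Fin n) K) (p q : Fin n) :
    P i j u p q = if ((p = i ∨ p = j) ↔ (q = i ∨ q = j)) then 0 else u p q := rfl

theorem P_eq (h2 : (2 : K) ≠ 0) {i j : Fin n} (hij : i ≠ j) {u : Matrix (Fin n) (Fin n) K}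
    (hu : uᵀ = -u) :
    P i j u = -(F i j * (F i j * u - u * F i j) - (F i j * u - u * F i j) * F i j) := by
  have hs : ∀ p q, u q p = -u p q := fun p q => congrFun (congrFun hu p) q
  have hd : ∀ p, u p p = 0 := by
    intro p
    have h := hs p p
    have h3 : (2 : K) * u p p = 0 := by linear_combination h
    exact (mul_eq_zero.1 h3).resolve_left h2
  ext p q
  simp only [P_apply, Matrix.neg_apply, Matrix.sub_apply, F_mul, mul_F]
  have e1 := hs i j
  have e2 := hs p q
  have e3 := hd i
  have e4 := hd j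
  have hji := hij.symm
  by_cases a1 : p = i
  · subst a1
    by_cases b1 : q = p
    · subst b1
      simp [hij, hji, hd]
    · by_cases b2 : q = j
      · subst b2
        simp [hij, hji, e1]
      · simp [hij, hji, b1, b2]
  · by_cases a2 : p = j
    · subst a2
      by_cases b1 : q = i
      · subst b1
        simp [hij, hji, e1]
      · by_cases b2 : q = p
        · subst b2
          simp [hij, hji, hd]
        · simp [hij, hji, b1, b2]
    · by_cases b1 : q = i
      · subst b1
        simp [hij, hji, a1, a2]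
      · by_cases b2 : q = j
        · subst b2
          simp [hij, hji, a1, a2]
        · simp [a1, a2, b1, b2]

theorem ex_not (S : Finset (Fin n)) (h : S.card < n) : ∃ a, a ∉ S := by
  by_contra hcon
  push Not at hcon
  have h1 : S = Finset.univ := Finset.eq_univ_iff_forall.2 hcon
  rw [h1, Finset.card_univ, Fintype.card_fin] at h
  exact lt_irrefl _ h

theorem logic {α : Type} {x y a b c p q : α} (n1 : x ≠ y) (n2 : a ≠ x) (n3 : a ≠ y) (n4 : b ≠ x)
    (n6 : b ≠ a) (n7 : c ≠ x) (n9 : c ≠ a) (n10 : c ≠ b)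
    (h1 : ¬((p = y ∨ p = a) ↔ (q = y ∨ q = a))) (h2 : ¬((p = x ∨ p = a) ↔ (q = x ∨ q = a)))
    (h3 : ¬((p = x ∨ p = b) ↔ (q = x ∨ q = b))) (h4 : ¬((p = x ∨ p = c) ↔ (q = x ∨ q = c))) :
    (p = x ∧ q = y) ∨ (p = y ∧ q = x) := by
  grind

theorem F_br {i j k : Fin n} (hij : i ≠ j) (hjk : j ≠ k) (hik : i ≠ k) :
    F i j * F j k - F j k * F i j = (F i k : Matrix (Fin n) (Fin n) K) := by
  ext p q
  simp only [Matrix.sub_apply, F_mul, mul_F, F_apply]
  grind

theorem two_smul_eq {a : Matrix (Fin n) (Fin n) K} (ha : aᵀ = -a) :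
    (2 : K) • a = ∑ p, ∑ q, a p q • F p q := by
  have hs : ∀ p q, a q p = -a p q := fun p q => congrFun (congrFun ha p) q
  ext r s
  rw [Matrix.smul_apply, Matrix.sum_apply]
  have h1 : ∀ p : Fin n, (∑ q, a p q • (F p q : Matrix (Fin n) (Fin n) K)) r s =
      (if r = p then a p s else 0) - (if s = p then a p r else 0) := by
    intro p
    rw [Matrix.sum_apply]
    simp only [Matrix.smul_apply, F_apply, smul_eq_mul, mul_sub, Finset.sum_sub_distrib, ite_and,
      mul_ite, mul_one, mul_zero]
    congr 1
    · by_cases h : r = p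
      · simp [h]
      · simp [h]
    · by_cases h : s = p
      · simp [h]
      · simp [h]
  rw [Finset.sum_congr rfl fun p _ => h1 p, Finset.sum_sub_distrib, Finset.sum_ite_eq,
    Finset.sum_ite_eq]
  simp only [Finset.mem_univ, if_true]
  rw [hs r s, smul_eq_mul]
  ring

/-- JOB SO -/
theorem t : S_SO := by
  classical
  intro K _ n h2 hn U hU hne hlie
  have hF : ∀ i j, ∀ u ∈ U, F i j * u - u * F i j ∈ U := fun i j u hu => hlie _ (F_skew i j) u hu
  have hP : ∀ i j, i ≠ j → ∀ u ∈ U, P i j u ∈ U := by
    intro i j hij u hu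
    rw [P_eq h2 hij (hU u hu)]
    exact U.neg_mem (hF i j _ (hF i j u hu))
  obtain ⟨u, hu, hu0⟩ := Submodule.exists_mem_ne_zero_of_ne_bot hne
  obtain ⟨x, y, hxy⟩ : ∃ x y, u x y ≠ 0 := by
    by_contra hcon
    push Not at hcon
    apply hu0
    ext p q
    exact hcon p q
  have hs : ∀ p q, u q p = -u p q := fun p q => congrFun (congrFun (hU u hu) p) q
  have hxy' : x ≠ y := by
    intro h
    subst h
    apply hxy
    have h3 : (2 : K) * u x x = 0 := by linear_combination hs x x
    exact (mul_eq_zero.1 h3).resolve_left h2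
  obtain ⟨a, ha⟩ := ex_not ({x, y} : Finset (Fin n)) (lt_of_le_of_lt Finset.card_le_two (by omega))
  simp only [Finset.mem_insert, Finset.mem_singleton, not_or] at ha
  obtain ⟨ha1, ha2⟩ := ha
  by_cases h5 : 5 ≤ n
  · left
    refine ⟨h5, ?_⟩
    obtain ⟨b, hb⟩ := ex_not ({x, y, a} : Finset (Fin n))
      (lt_of_le_of_lt Finset.card_le_three (by omega))
    simp only [Finset.mem_insert, Finset.mem_singleton, not_or] at hb
    obtain ⟨hb1, hb2, hb3⟩ := hb
    obtain ⟨c, hc⟩ := ex_not ({x, y, a, b} : Finset (Fin n))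
      (lt_of_le_of_lt Finset.card_le_four (by omega))
    simp only [Finset.mem_insert, Finset.mem_singleton, not_or] at hc
    obtain ⟨hc1, hc2, hc3, hc4⟩ := hc
    have hv : P y a (P x a (P x b (P x c u))) = (u x y) • F x y := by
      have hyx := hs x y
      have hxyn := hxy'.symm
      have ha1n := Ne.symm ha1
      have ha2n := Ne.symm ha2
      have hb1n := Ne.symm hb1
      have hb2n := Ne.symm hb2
      have hc1n := Ne.symm hc1
      have hc2n := Ne.symm hc2
      ext p q
      simp only [P_apply, Matrix.smul_apply, F_apply, smul_eq_mul]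
      by_cases hA : p = x ∧ q = y
      · rw [hA.1, hA.2]
        simp [hxy', hxyn, ha1n, ha2n, hb1n, hb2n, hc1n, hc2n]
      by_cases hB : p = y ∧ q = x
      · rw [hB.1, hB.2]
        simp [hxy', hxyn, ha1n, ha2n, hb1n, hb2n, hc1n, hc2n, hyx]
      rw [if_neg hA, if_neg hB, sub_zero, mul_zero]
      split_ifs with h1 h2 h3 h4
      · rfl
      · rfl
      · rfl
      · rfl
      · exfalso
        rcases logic hxy' ha1 ha2 hb1 hb3 hc1 hc3 hc4 h1 h2 h3 h4 with h | h
        · exact hA h
        · exact hB h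
    have hvU : P y a (P x a (P x b (P x c u))) ∈ U :=
      hP y a (Ne.symm ha2) _ (hP x a (Ne.symm ha1) _ (hP x b (Ne.symm hb1) _
        (hP x c (Ne.symm hc1) _ hu)))
    have hFxy : F x y ∈ U := by
      rw [hv] at hvU
      have := U.smul_mem (u x y)⁻¹ hvU
      rwa [smul_smul, inv_mul_cancel₀ hxy, one_smul] at this
    have h1 : ∀ z, z ≠ x → F x z ∈ U := by
      intro z hz
      by_cases hzy : z = y
      · rw [hzy]
        exact hFxy
      · have h := U.neg_mem (hF y z _ hFxy)
        rw [neg_sub, F_br hxy' (Ne.symm hzy) (Ne.symm hz)] at h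
        exact h
    have hall : ∀ p q, F p q ∈ U := by
      intro p q
      by_cases hpq : p = q
      · have : (F p q : Matrix (Fin n) (Fin n) K) = 0 := by
          rw [hpq]
          ext r s
          rw [F_apply, sub_self]
          rfl
        rw [this]
        exact U.zero_mem
      by_cases hpx : p = x
      · rw [hpx]
        exact h1 q (fun h => hpq (by rw [hpx, h]))
      by_cases hqx : q = x
      · have : (F p q : Matrix (Fin n) (Fin n) K) = -F x p := by
          rw [hqx]
          ext r s
          rw [Matrix.neg_apply, F_apply, F_apply, neg_sub]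
        rw [this]
        exact U.neg_mem (h1 p hpx)
      · have h := hF p x _ (h1 q hqx)
        rw [F_br hpx (Ne.symm hqx) hpq] at h
        exact h
    intro m hm
    have h3 : m = (2 : K)⁻¹ • ∑ p, ∑ q, m p q • F p q := by
      rw [← two_smul_eq hm, smul_smul, inv_mul_cancel₀ h2, one_smul]
    rw [h3]
    exact U.smul_mem _ (U.sum_mem fun p _ => U.sum_mem fun q _ => U.smul_mem _ (hall p q))
  · right
    refine ⟨by omega, ?_⟩
    obtain ⟨w, hw⟩ : ∃ w, w = P x a u := ⟨_, rfl⟩
    have hwU : w ∈ U := by
      rw [hw]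
      exact hP x a (Ne.symm ha1) u hu
    have hwxy : w x y = u x y := by
      rw [hw, P_apply, if_neg]
      intro h
      rcases h.1 (Or.inl rfl) with h | h
      · exact hxy' h.symm
      · exact ha2 h.symm
    have hwxa : w x a = 0 := by
      rw [hw, P_apply, if_pos]
      exact ⟨fun _ => Or.inr rfl, fun _ => Or.inl rfl⟩
    refine ⟨w, hwU, _, hF y a w hwU, ?_⟩
    rw [LinearIndependent.pair_iff]
    intro s r hsr
    have e1 := congrFun (congrFun hsr x) y
    have e2 := congrFun (congrFun hsr x) a
    simp only [Matrix.add_apply, Matrix.smul_apply, Matrix.sub_apply, F_mul, mul_F, hwxy, hwxa,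
      hxy', Ne.symm ha1, Ne.symm ha2, ha2, if_true, if_false, smul_eq_mul, Matrix.zero_apply] at e1 e2
    constructor
    · have h6 : s * u x y = 0 := by linear_combination e1
      exact (mul_eq_zero.1 h6).resolve_right hxy
    · have h6 : r * u x y = 0 := by linear_combination -e2
      exact (mul_eq_zero.1 h6).resolve_right hxy

end Pool.Agent.Q123.HO.SO
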